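import Pool.Agent.Helper10.HS.GoalsL
import Pool.Agent.Helper70.HS.INVK

/-!
# HS, packet FLTM: flatness on the étale relation gives flatness on `M`
-/

open Complex Metric Set Filter Topology MeasureTheory
open scoped ContDiff ComplexConjugate ComplexOrder Manifold Matrix

namespace Pool.Agent.Helper55.HS

open Pool.Agent.Helper95.Lin Pool.Agent.Helper16.Abund Pool.Agent.Helper92.Orb
open Pool.Agent.Helper10.SP Pool.Agent.Helper95.RK Pool.Agent.Helper15.RK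
open Pool.Agent.Helper57.HS Pool.Agent.Helper10.RK Pool.Agent.Helper10.HS
open Pool.Agent.Helper45.HS Pool.Agent.Helper70.HS

universe u v

section trans

open Invk

variable {n : ℕ}

/-- the transformation of the connection -/
theorem gam_trans2 (hW : S_WCH) {T U : Set (Cn n)} (hT : IsOpen T) (hU : IsOpen U)
    {τ : Cn n → Cn n} (hτ : DifferentiableOn ℂ τ U) (hm : MapsTo τ U T)
    (hdet : ∀ y ∈ U, (JF τ y).det ≠ 0)
    {H H' : Cn n → Matrix (Fin n) (Fin n) ℂ} (hH : SmM H T) (hp : ∀ x ∈ T, (H x).PosDef)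
    (hinv : ∀ y ∈ U, H' y = JF τ y * H (τ y) * (JF τ y)ᴴ) {x : Cn n} (hx : x ∈ U) (k : Fin n) :
    Gam H' k x = cdM k (JF τ) x * (JF τ x)⁻¹ +
      JF τ x * (∑ p, JF τ x k p • Gam H p (τ x)) * (JF τ x)⁻¹ := by
  have hJs := JF_smM hU hτ
  have hHs := smM_comp hU hτ hm hH
  have h1 : cdM k H' x = (cdM k (JF τ) x * H (τ x) +
      JF τ x * ∑ p, JF τ x k p • cdM p H (τ x)) * (JF τ x)ᴴ := by
    rw [cdM_congr hU hx hinv k, cdM_mul hU hx (hJs.mul hHs) hJs.conjTranspose k,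
      cdM_mul hU hx hJs hHs k, cdM_conjTranspose hU hx hJs k, JF_cdb hU hτ hx k,
      (comp_cdM hW hT hU hτ hm hH hx k).1]
    simp
  have h2 := inv_trans (hinv x hx)
  have hu := isUnit_H (hdet x hx)
  have huH : IsUnit (H (τ x)).det := (posDef_det (hp _ (hm hx))).isUnit
  unfold Gam
  rw [h1, h2]
  have e1 : ∑ p, JF τ x k p • (cdM p H (τ x) * (H (τ x))⁻¹) =
      (∑ p, JF τ x k p • cdM p H (τ x)) * (H (τ x))⁻¹ := by
    rw [Finset.sum_mul]
    refine Finset.sum_congr rfl fun p _ => ?_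
    rw [Matrix.smul_mul]
  rw [e1]
  calc (cdM k (JF τ) x * H (τ x) + JF τ x * ∑ p, JF τ x k p • cdM p H (τ x)) * (JF τ x)ᴴ *
        ((JF τ x)ᴴ⁻¹ * (H (τ x))⁻¹ * (JF τ x)⁻¹)
      = (cdM k (JF τ) x * H (τ x) + JF τ x * ∑ p, JF τ x k p • cdM p H (τ x)) *
        ((JF τ x)ᴴ * (JF τ x)ᴴ⁻¹) * (H (τ x))⁻¹ * (JF τ x)⁻¹ := by
        simp only [Matrix.mul_assoc]
    _ = cdM k (JF τ) x * (H (τ x) * (H (τ x))⁻¹) * (JF τ x)⁻¹ +
        JF τ x * ((∑ p, JF τ x k p • cdM p H (τ x)) * (H (τ x))⁻¹) * (JF τ x)⁻¹ := by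
        rw [Matrix.mul_nonsing_inv _ hu, Matrix.mul_one]
        simp only [Matrix.add_mul, Matrix.mul_assoc]
    _ = _ := by rw [Matrix.mul_nonsing_inv _ huH, Matrix.mul_one]

/-- the transformation of the curvature -/
theorem crv_trans2 (hW : S_WCH) {T U : Set (Cn n)} (hT : IsOpen T) (hU : IsOpen U)
    {τ : Cn n → Cn n} (hτ : DifferentiableOn ℂ τ U) (hm : MapsTo τ U T)
    (hdet : ∀ y ∈ U, (JF τ y).det ≠ 0)
    {H H' : Cn n → Matrix (Fin n) (Fin n) ℂ} (hH : SmM H T) (hp : ∀ x ∈ T, (H x).PosDef)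
    (hinv : ∀ y ∈ U, H' y = JF τ y * H (τ y) * (JF τ y)ᴴ) {x : Cn n} (hx : x ∈ U)
    (k l : Fin n) :
    cdbM l (Gam H' k) x * H' x = JF τ x * (∑ p, ∑ q, (JF τ x k p * conj (JF τ x l q)) •
      (cdbM q (Gam H p) (τ x) * H (τ x))) * (JF τ x)ᴴ := by
  have hJs := JF_smM hU hτ
  have hJi := hJs.inv hdet
  have hGs : ∀ p, SmM (fun y => Gam H p (τ y)) U := fun p =>
    smM_comp hU hτ hm (gam_smM hT hH hp p)
  have hS : SmM (fun y => ∑ p, JF τ y k p • Gam H p (τ y)) U :=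
    SmM.sum _ fun p _ => SmM.smul (hJs k p) (hGs p)
  have h1 : cdbM l (Gam H' k) x = JF τ x * (∑ p, ∑ q, (JF τ x k p * conj (JF τ x l q)) •
      cdbM q (Gam H p) (τ x)) * (JF τ x)⁻¹ := by
    rw [cdbM_congr hU hx (fun y hy => gam_trans2 hW hT hU hτ hm hdet hH hp hinv hy k) l,
      cdbM_add hU hx ((hJs.cdM hU k).mul hJi) ((hJs.mul hS).mul hJi) l,
      cdbM_mul hU hx (hJs.cdM hU k) hJi l, cdbM_mul hU hx (hJs.mul hS) hJi l,
      cdbM_mul hU hx hJs hS l, JF_inv_cdb hU hτ hdet hx l, JF_cdb hU hτ hx l,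
      ← cdM_cdbM hU hx hJs k l, cdM_congr hU hx (fun y hy => JF_cdb hU hτ hy l) k]
    have h2 : cdM k (fun _ : Cn n => (0 : Matrix (Fin n) (Fin n) ℂ)) x = 0 := cdM_const 0 k
    rw [h2, cdbM_sum hU hx Finset.univ (fun p _ => SmM.smul (hJs k p) (hGs p)) l]
    simp only [Matrix.zero_mul, Matrix.mul_zero, zero_add, add_zero]
    congr 2
    refine Finset.sum_congr rfl fun p _ => ?_
    rw [cdbM_smul hU hx (hJs k p) (hGs p) l,
      (comp_cdM hW hT hU hτ hm (gam_smM hT hH hp p) hx l).2]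
    have h3 : cdb l (fun y => JF τ y k p) x = 0 := congrFun (congrFun (JF_cdb hU hτ hx l) k) p
    rw [h3, zero_smul, zero_add, Finset.smul_sum]
    refine Finset.sum_congr rfl fun q _ => ?_
    rw [smul_smul]
  rw [h1, hinv x hx]
  have e1 : ∑ p, ∑ q, (JF τ x k p * conj (JF τ x l q)) •
      (cdbM q (Gam H p) (τ x) * H (τ x)) = (∑ p, ∑ q, (JF τ x k p * conj (JF τ x l q)) •
      cdbM q (Gam H p) (τ x)) * H (τ x) := by
    rw [Finset.sum_mul]
    refine Finset.sum_congr rfl fun p _ => ?_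
    rw [Finset.sum_mul]
    refine Finset.sum_congr rfl fun q _ => ?_
    rw [Matrix.smul_mul]
  rw [e1]
  set S := ∑ p, ∑ q, (JF τ x k p * conj (JF τ x l q)) • cdbM q (Gam H p) (τ x)
  calc JF τ x * S * (JF τ x)⁻¹ * (JF τ x * H (τ x) * (JF τ x)ᴴ)
      = JF τ x * S * ((JF τ x)⁻¹ * JF τ x) * H (τ x) * (JF τ x)ᴴ := by
        simp only [Matrix.mul_assoc]
    _ = _ := by
        rw [Matrix.nonsing_inv_mul _ (isUnit_iff_ne_zero.2 (hdet x hx)), Matrix.mul_one]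
        simp only [Matrix.mul_assoc]

end trans

/-- The curvature in terms of the connection. -/
theorem crv_gam {n : ℕ} {W : Set (Cn n)} (hW : IsOpen W) {H : Cn n → Matrix (Fin n) (Fin n) ℂ}
    (hH : SmM H W) (hp : ∀ x ∈ W, (H x).PosDef) {x : Cn n} (hx : x ∈ W) (i j k l : Fin n) :
    crv H x i j k l = - (cdbM l (Gam H k) x * H x) i j := by
  have h0 : ∀ x ∈ W, (H x).det ≠ 0 := fun x hx => posDef_det (hp x hx)
  have hu : IsUnit (H x).det := isUnit_iff_ne_zero.2 (h0 x hx)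
  have h1 : cdbM l (Gam H k) x = cdbM l (cdM k H) x * (H x)⁻¹ +
      cdM k H x * (- ((H x)⁻¹ * cdbM l H x * (H x)⁻¹)) := by
    have e : Gam H k = fun y => cdM k H y * (H y)⁻¹ := rfl
    rw [e, cdbM_mul hW hx (hH.cdM hW k) (hH.inv h0) l, cdbM_inv hW hx hH h0 l]
  have h2 : cdbM l (Gam H k) x * H x = cdbM l (cdM k H) x - cdM k H x * (H x)⁻¹ * cdbM l H x := by
    rw [h1, Matrix.add_mul]
    have e1 : cdbM l (cdM k H) x * (H x)⁻¹ * H x = cdbM l (cdM k H) x := by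
      rw [Matrix.mul_assoc, Matrix.nonsing_inv_mul _ hu, Matrix.mul_one]
    have e2 : cdM k H x * (- ((H x)⁻¹ * cdbM l H x * (H x)⁻¹)) * H x =
        - (cdM k H x * (H x)⁻¹ * cdbM l H x) := by
      rw [Matrix.mul_neg, Matrix.neg_mul]
      congr 1
      calc cdM k H x * ((H x)⁻¹ * cdbM l H x * (H x)⁻¹) * H x
          = cdM k H x * (H x)⁻¹ * cdbM l H x * ((H x)⁻¹ * H x) := by
            simp only [Matrix.mul_assoc]
        _ = _ := by rw [Matrix.nonsing_inv_mul _ hu, Matrix.mul_one]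
    rw [e1, e2, sub_eq_add_neg]
  rw [h2, ← cdM_cdbM hW hx hH k l]
  unfold crv
  rw [Matrix.sub_apply]
  have e3 : cdM k (cdbM l H) x i j = cd k (cdb l fun y => H y i j) x := rfl
  rw [e3]
  ring

/-- The pull back matrix depends on the germ. -/
theorem pm_congr {n : ℕ} {M : Type v} [TopologicalSpace M] [ChartedSpace (Fin n → ℂ) M]
    (q : M → Matrix (Fin n) (Fin n) ℂ) {f g : Cn n → M} {x : Cn n} (h : f =ᶠ[𝓝 x] g) :
    pm n q f x = pm n q g x := by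
  have h0 : f x = g x := h.eq_of_nhds
  have h1 := h.mfderiv_eq (I := 𝓘(ℂ, Fin n → ℂ)) (I' := 𝓘(ℂ, Fin n → ℂ))
  have h2 : ∀ e : Cn n, dvec n f x e = dvec n g x e := by
    intro e
    exact DFunLike.congr_fun (F := (Fin n → ℂ) →L[ℂ] (Fin n → ℂ)) h1 e
  ext i j
  unfold pm
  rw [Matrix.of_apply, Matrix.of_apply, h2, h2, h0]

theorem fltm (hPARH : S_PARH.{u, v}) (hPMH : S_PMH.{u, v}) (hKETH : S_KETH.{u, v})
    (hWCH : S_WCH) : S_FLTM.{u, v} := by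
  intro n G M _ _ _ _ _ _ _ h hD T E hE hcov hflat V ψ hψ z hz i j k l
  have hgen := (hKETH hD T E hE hcov).2
  obtain ⟨C, hCT, hC, hc⟩ := hcov
  obtain ⟨γ, x, hxC, hγ⟩ := hc (ψ z)
  obtain ⟨hP1, hP2, hP3, hP4, hP5⟩ := hPARH hD
  obtain ⟨τ, U, W, hU, hW, hzU, hxW, hUV, hWT, hτ, hinj, hmaps, hτz, hdet, hiff⟩ :=
    hP3 V T ψ E hψ hE γ z hz x (hCT hxC) hγ
  have hT : IsOpen T := hE.1.1
  have hV : IsOpen V := hψ.1.1
  obtain ⟨hEp, hEs, hEc⟩ := hgen T E hE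
  obtain ⟨hψp, hψs, hψc⟩ := hgen V ψ hψ
  obtain ⟨hpos, hform⟩ := hD.kah
  have hherm : HermMetric n M h := ⟨hpos, fun V ψ hψ => (hform V ψ hψ).1⟩
  obtain ⟨hq1, hq2⟩ := hPMH hD h hherm hD.inv
  have hm : MapsTo τ U T := fun y hy => hWT (hmaps hy)
  have hdetJ : ∀ y ∈ U, (Invk.JF τ y).det ≠ 0 := by
    intro y hy
    unfold Invk.JF
    rw [det_Jt]
    exact hdet y hy
  have hinv : ∀ y ∈ U, pm n h ψ y = Invk.JF τ y * pm n h E (τ y) * (Invk.JF τ y)ᴴ := by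
    intro y hy
    refine form_mat _ _ (fderiv ℂ τ y) fun u w => ?_
    rw [← hq2 T U E τ hE hU hτ hm hdet y hy u w]
    have h1 : (E ∘ τ) =ᶠ[𝓝 y] fun y => γ • ψ y := by
      filter_upwards [hU.mem_nhds hy] with y' hy'
      exact ((hiff y' hy' (τ y') (hmaps hy')).2 rfl).symm
    rw [pm_congr h h1, (hq1 V ψ hψ).2.2.2 γ y (hUV hy)]
  have hcl : ∀ k l, cdbM l (Gam (pm n h ψ) k) z * pm n h ψ z = 0 := by
    intro k l
    rw [crv_trans2 hWCH hT hU hτ hm hdetJ hEs hEp hinv hzU k l]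
    have h0 : ∀ p q, cdbM q (Gam (pm n h E) p) (τ z) * pm n h E (τ z) = 0 := by
      intro p q
      ext a c
      have h1 := crv_gam hT hEs hEp (hm hzU) a c p q
      rw [hflat (τ z) (hm hzU) a c p q] at h1
      rw [Matrix.zero_apply]
      exact neg_eq_zero.1 h1.symm
    simp only [h0, smul_zero, Finset.sum_const_zero, Matrix.mul_zero, Matrix.zero_mul]
  rw [crv_gam hV hψs hψp hz i j k l, hcl k l, Matrix.zero_apply, neg_zero]

end Pool.Agent.Helper55.HS
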